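import Pool.Agent.H98.RFT.Targets3
import Pool.Agent.H19.RFC.PS

/-!
AP: the inequality of Aizenman and Peled at positive temperature.
-/

set_option autoImplicit false

open MeasureTheory ProbabilityTheory Filter Topology

namespace Pool.Agent.H49.RFT

open Pool.Agent.H98.RFC Pool.Agent.H98.RFZ Pool.Agent.H98.RFT

variable {R : ℕ} {J h : Site → ℝ} {T : ℝ} {Λ V : Finset Site}

theorem en_shf (hV : V ⊆ Λ) (t : ℝ) (A : Set Site) :
    en R J (shf V t h) Λ A = en R J h Λ A - t * ∑ x ∈ V, sg A x := by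
  unfold en shf
  have e : ∑ x ∈ Λ, (h x + if x ∈ V then t else 0) * sg A x =
      ∑ x ∈ Λ, h x * sg A x + t * ∑ x ∈ V, sg A x := by
    simp only [add_mul, ite_mul, zero_mul]
    rw [Finset.sum_add_distrib, Finset.sum_ite_mem, Finset.inter_eq_right.2 hV, Finset.mul_sum]
  rw [e]
  ring

theorem wt_shf (hV : V ⊆ Λ) (t : ℝ) (B : Set Site) (S : Finset Site) :
    wt R J (shf V t h) T Λ B S =
      wt R J h T Λ B S * Real.exp (t * (∑ x ∈ V, sg (↑S ∪ B) x) / T) := by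
  unfold wt
  rw [en_shf hV, ← Real.exp_add]
  congr 1
  ring

theorem hasDeriv_wt (hV : V ⊆ Λ) (t : ℝ) (B : Set Site) (S : Finset Site) :
    HasDerivAt (fun t => wt R J (shf V t h) T Λ B S)
      (wt R J (shf V t h) T Λ B S * ((∑ x ∈ V, sg (↑S ∪ B) x) / T)) t := by
  set M := ∑ x ∈ V, sg (↑S ∪ B) x with hM
  have h1 : HasDerivAt (fun t : ℝ => t * M / T) (M / T) t := by
    have := ((hasDerivAt_id t).mul_const M).div_const T
    simpa using this
  have h2 := (h1.exp).const_mul (wt R J h T Λ B S)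
  have e : (fun t => wt R J (shf V t h) T Λ B S) =
      fun t => wt R J h T Λ B S * Real.exp (t * M / T) := by
    funext t
    exact wt_shf hV t B S
  rw [e, wt_shf hV t B S]
  refine h2.congr_deriv ?_
  ring

theorem Zf_pos (h : Site → ℝ) (B : Set Site) : 0 < Zf R J h T Λ B :=
  Finset.sum_pos (fun _ _ => Real.exp_pos _) ⟨∅, Finset.empty_mem_powerset _⟩

theorem Zm_pos (h : Site → ℝ) (B : Set Site) : 0 < Zm R J h T Λ V B :=
  Finset.sum_pos (fun _ _ => Real.exp_pos _) ⟨∅, Finset.empty_mem_powerset _⟩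

theorem hasDeriv_Zf (hV : V ⊆ Λ) (t : ℝ) (B : Set Site) :
    HasDerivAt (fun t => Zf R J (shf V t h) T Λ B)
      (∑ S ∈ Λ.powerset, wt R J (shf V t h) T Λ B S * ((∑ x ∈ V, sg (↑S ∪ B) x) / T)) t := by
  unfold Zf
  exact HasDerivAt.fun_sum fun S _ => hasDeriv_wt hV t B S

theorem hasDeriv_logZ (hT : 0 < T) (hV : V ⊆ Λ) (t : ℝ) (B : Set Site) :
    HasDerivAt (fun t => T * Real.log (Zf R J (shf V t h) T Λ B))
      (∑ x ∈ V, mg R J (shf V t h) T Λ B x) t := by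
  have hp := Zf_pos (R := R) (J := J) (T := T) (Λ := Λ) (shf V t h) B
  have h1 := ((hasDeriv_Zf (R := R) (J := J) (h := h) (T := T) hV t B).log hp.ne').const_mul T
  refine h1.congr_deriv ?_
  unfold mg
  rw [← Finset.sum_div, Finset.sum_comm, ← mul_div_assoc, Finset.mul_sum]
  congr 1
  refine Finset.sum_congr rfl fun S _ => ?_
  rw [← Finset.mul_sum]
  field_simp

theorem cont_wt (hV : V ⊆ Λ) (B : Set Site) (S : Finset Site) :
    Continuous (fun t => wt R J (shf V t h) T Λ B S) :=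
  continuous_iff_continuousAt.2 fun t => (hasDeriv_wt hV t B S).continuousAt

theorem cont_mg (hV : V ⊆ Λ) (B : Set Site) (x : Site) :
    Continuous (fun t => mg R J (shf V t h) T Λ B x) := by
  unfold mg
  refine Continuous.div ?_ ?_ fun t => (Zf_pos _ _).ne'
  · exact continuous_finsetSum _ fun S _ => (cont_wt hV B S).mul continuous_const
  · unfold Zf
    exact continuous_finsetSum _ fun S _ => cont_wt hV B S

theorem sg_congr {A B : Set Site} {x : Site} (hx : x ∈ A ↔ x ∈ B) : sg A x = sg B x := by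
  unfold sg
  by_cases hA : x ∈ A
  · rw [if_pos hA, if_pos (hx.1 hA)]
  · rw [if_neg hA, if_neg (fun hB => hA (hx.2 hB))]

/-- the four functions theorem for the sums over all subsets of `U` -/
theorem four_sum (U : Finset Site) (f₁ f₂ f₃ f₄ : Finset Site → ℝ) (h₁ : 0 ≤ f₁) (h₂ : 0 ≤ f₂)
    (h₃ : 0 ≤ f₃) (h₄ : 0 ≤ f₄)
    (hf : ∀ S S' : Finset Site, S ⊆ U → S' ⊆ U → f₁ S * f₂ S' ≤ f₃ (S ∩ S') * f₄ (S ∪ S')) :
    (∑ S ∈ U.powerset, f₁ S) * (∑ S ∈ U.powerset, f₂ S) ≤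
      (∑ S ∈ U.powerset, f₃ S) * (∑ S ∈ U.powerset, f₄ S) := by
  have key := Finset.four_functions_theorem (u := U) (f₁ := f₁) (f₂ := f₂) (f₃ := f₃) (f₄ := f₄)
    h₁ h₂ h₃ h₄ (fun S hS S' hS' => hf S S' hS hS') (𝒜 := U.powerset) (ℬ := U.powerset)
    subset_rfl subset_rfl
  rw [Finset.powerset_infs_powerset_self, Finset.powerset_sups_powerset_self] at key
  exact key

theorem Zf_split (hV : V ⊆ Λ) (t : ℝ) (B : Set Site) (hB : ∀ x ∈ V, x ∉ B) :
    Zf R J (shf V t h) T Λ B = ∑ A ∈ V.powerset,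
      Real.exp (t * (∑ x ∈ V, sg (↑A : Set Site) x) / T) * Zm R J h T Λ V (↑A ∪ B) := by
  classical
  unfold Zf
  have e : Λ = V ∪ (Λ \ V) := (Finset.union_sdiff_of_subset hV).symm
  have h1 : ∑ S ∈ Λ.powerset, wt R J (shf V t h) T Λ B S =
      ∑ S ∈ (V ∪ (Λ \ V)).powerset, wt R J (shf V t h) T Λ B S := by rw [← e]
  rw [h1, Pool.Agent.H19.RFC.pf_PS Site V (Λ \ V) Finset.disjoint_sdiff]
  refine Finset.sum_congr rfl fun A hA => ?_
  unfold Zm
  rw [Finset.mul_sum]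
  refine Finset.sum_congr rfl fun S hS => ?_
  rw [Finset.mem_powerset] at hA hS
  rw [wt_shf hV, mul_comm]
  have e2 : ∑ x ∈ V, sg ((↑(A ∪ S) : Set Site) ∪ B) x = ∑ x ∈ V, sg (↑A : Set Site) x := by
    refine Finset.sum_congr rfl fun x hx => ?_
    refine sg_congr ?_
    have h3 : x ∉ S := fun hxS => (Finset.mem_sdiff.1 (hS hxS)).2 hx
    simp only [Set.mem_union, Finset.mem_coe, Finset.mem_union]
    have := hB x hx
    tauto
  rw [e2]
  unfold wt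
  have e3 : ((↑(A ∪ S) : Set Site) ∪ B) = (↑S ∪ (↑A ∪ B)) := by
    ext x
    simp only [Set.mem_union, Finset.mem_coe, Finset.mem_union]
    tauto
  rw [e3]

theorem Zm_four (hSUB : T_SUB) (hJ : IsCoupling R J) (h : Site → ℝ) (hT : 0 < T)
    (B₁ B₂ B₃ B₄ : Set Site)
    (h3 : ∀ S S' : Finset Site, S ⊆ Λ \ V → S' ⊆ Λ \ V →
      ((↑S ∪ B₁) ∩ (↑S' ∪ B₂) : Set Site) = ↑(S ∩ S') ∪ B₃)
    (h4 : ∀ S S' : Finset Site, S ⊆ Λ \ V → S' ⊆ Λ \ V →
      ((↑S ∪ B₁) ∪ (↑S' ∪ B₂) : Set Site) = ↑(S ∪ S') ∪ B₄) :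
    Zm R J h T Λ V B₁ * Zm R J h T Λ V B₂ ≤ Zm R J h T Λ V B₃ * Zm R J h T Λ V B₄ := by
  have hn : ∀ B : Set Site, 0 ≤ fun S : Finset Site => Real.exp (-(en R J h Λ (↑S ∪ B)) / T) :=
    fun B S => (Real.exp_pos _).le
  unfold Zm
  refine four_sum (Λ \ V) _ _ _ _ (hn B₁) (hn B₂) (hn B₃) (hn B₄) fun S S' hS hS' => ?_
  rw [← Real.exp_add, ← Real.exp_add]
  refine Real.exp_le_exp.2 ?_
  rw [← add_div, ← add_div]
  refine div_le_div_of_nonneg_right ?_ hT.le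
  have h5 := hSUB R J hJ h Λ (↑S ∪ B₁) (↑S' ∪ B₂)
  rw [h3 S S' hS hS', h4 S S' hS hS'] at h5
  linarith

/-- upper bound for the quotient -/
theorem upp (hSUB : T_SUB) (hJ : IsCoupling R J) (h : Site → ℝ) (hT : 0 < T) (hV : V ⊆ Λ)
    (t : ℝ) : Zf R J (shf V t h) T Λ (↑Λ)ᶜ * Zm R J h T Λ V ↑V ≤
      Zm R J h T Λ V ((↑Λ)ᶜ ∪ ↑V) * Zf R J (shf V t h) T Λ ∅ := by
  rw [Zf_split hV t (↑Λ)ᶜ (fun x hx hx' => hx' (Finset.mem_coe.2 (hV hx))),
    Zf_split hV t ∅ (fun x _ hx' => hx'), Finset.sum_mul, Finset.mul_sum]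
  refine Finset.sum_le_sum fun A hA => ?_
  rw [Finset.mem_powerset] at hA
  have h1 := Zm_four (T := T) (Λ := Λ) (V := V) hSUB hJ h hT (↑A ∪ (↑Λ)ᶜ) ↑V (↑A ∪ ∅)
    ((↑Λ)ᶜ ∪ ↑V) ?_ ?_
  · have h2 := mul_le_mul_of_nonneg_left h1
      (Real.exp_pos (t * (∑ x ∈ V, sg (↑A : Set Site) x) / T)).le
    calc _ = Real.exp (t * (∑ x ∈ V, sg (↑A : Set Site) x) / T) *
          (Zm R J h T Λ V (↑A ∪ (↑Λ)ᶜ) * Zm R J h T Λ V ↑V) := by ring
      _ ≤ _ := h2
      _ = _ := by ring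
  · intro S S' hS hS'
    ext x
    have a1 : x ∈ S → x ∈ Λ ∧ x ∉ V := fun hx => Finset.mem_sdiff.1 (hS hx)
    have a2 : x ∈ S' → x ∈ Λ ∧ x ∉ V := fun hx => Finset.mem_sdiff.1 (hS' hx)
    have a3 : x ∈ A → x ∈ V := fun hx => hA hx
    have a4 : x ∈ V → x ∈ Λ := fun hx => hV hx
    simp only [Set.mem_inter_iff, Set.mem_union, Finset.mem_coe, Set.mem_compl_iff,
      Finset.mem_inter, Set.mem_empty_iff_false]
    tauto
  · intro S S' hS hS'
    ext x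
    have a3 : x ∈ A → x ∈ V := fun hx => hA hx
    simp only [Set.mem_union, Finset.mem_coe, Set.mem_compl_iff, Finset.mem_union]
    tauto

/-- lower bound for the quotient -/
theorem low (hSUB : T_SUB) (hJ : IsCoupling R J) (h : Site → ℝ) (hT : 0 < T) (hV : V ⊆ Λ)
    (t : ℝ) : Zm R J h T Λ V (↑Λ)ᶜ * Zf R J (shf V t h) T Λ ∅ ≤
      Zf R J (shf V t h) T Λ (↑Λ)ᶜ * Zm R J h T Λ V ∅ := by
  rw [Zf_split hV t (↑Λ)ᶜ (fun x hx hx' => hx' (Finset.mem_coe.2 (hV hx))),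
    Zf_split hV t ∅ (fun x _ hx' => hx'), Finset.sum_mul, Finset.mul_sum]
  refine Finset.sum_le_sum fun A hA => ?_
  rw [Finset.mem_powerset] at hA
  have h1 := Zm_four (T := T) (Λ := Λ) (V := V) hSUB hJ h hT (↑Λ)ᶜ (↑A ∪ ∅) ∅ (↑A ∪ (↑Λ)ᶜ) ?_ ?_
  · have h2 := mul_le_mul_of_nonneg_left h1
      (Real.exp_pos (t * (∑ x ∈ V, sg (↑A : Set Site) x) / T)).le
    calc _ = Real.exp (t * (∑ x ∈ V, sg (↑A : Set Site) x) / T) *
          (Zm R J h T Λ V (↑Λ)ᶜ * Zm R J h T Λ V (↑A ∪ ∅)) := by ring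
      _ ≤ _ := h2
      _ = _ := by ring
  · intro S S' hS hS'
    ext x
    have a1 : x ∈ S → x ∈ Λ ∧ x ∉ V := fun hx => Finset.mem_sdiff.1 (hS hx)
    have a2 : x ∈ S' → x ∈ Λ ∧ x ∉ V := fun hx => Finset.mem_sdiff.1 (hS' hx)
    have a3 : x ∈ A → x ∈ V := fun hx => hA hx
    have a4 : x ∈ V → x ∈ Λ := fun hx => hV hx
    simp only [Set.mem_inter_iff, Set.mem_union, Finset.mem_coe, Set.mem_compl_iff,
      Finset.mem_inter, Set.mem_empty_iff_false]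
    tauto
  · intro S S' hS hS'
    ext x
    simp only [Set.mem_union, Finset.mem_coe, Set.mem_compl_iff, Finset.mem_union,
      Set.mem_empty_iff_false]
    tauto

theorem pf_AP (hTQ : D_TQ) (hTEN : D_TEN) (hSUB : T_SUB) : D_AP := by
  intro R J hJ h T hT V Λ hH hV t₁ t₂ ht
  set F : ℝ → ℝ := fun t => T * Real.log (Zf R J (shf V t h) T Λ (↑Λ)ᶜ) -
    T * Real.log (Zf R J (shf V t h) T Λ ∅) with hF
  have hFd : ∀ t : ℝ, HasDerivAt F (2 * ∑ x ∈ V, inf1 R J (shf V t h) T Λ x) t := by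
    intro t
    have h1 := (hasDeriv_logZ (R := R) (J := J) (h := h) hT hV t (↑Λ)ᶜ).sub
      (hasDeriv_logZ (R := R) (J := J) (h := h) hT hV t ∅)
    refine h1.congr_deriv ?_
    rw [← Finset.sum_sub_distrib, Finset.mul_sum]
    refine Finset.sum_congr rfl fun x _ => ?_
    unfold inf1
    ring
  have hcont : Continuous (fun t => 2 * ∑ x ∈ V, inf1 R J (shf V t h) T Λ x) := by
    refine continuous_const.mul (continuous_finsetSum _ fun x _ => ?_)
    unfold inf1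
    exact ((cont_mg hV _ x).sub (cont_mg hV _ x)).div_const 2
  have hint : 2 * ∫ t in Set.Icc t₁ t₂, ∑ x ∈ V, inf1 R J (shf V t h) T Λ x = F t₂ - F t₁ := by
    rw [← integral_const_mul, integral_Icc_eq_integral_Ioc, ← intervalIntegral.integral_of_le ht]
    exact intervalIntegral.integral_eq_sub_of_hasDerivAt (fun t _ => hFd t)
      (hcont.intervalIntegrable _ _)
  rw [hint]
  have u := upp hSUB hJ h hT hV t₂
  have l := low hSUB hJ h hT hV t₁
  have q := hTQ R J hJ h T hT V Λ hH hV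
  have hq := (hTEN R J hJ T hT V Λ hV).1 h
  have pa := Zf_pos (R := R) (J := J) (T := T) (Λ := Λ) (shf V t₂ h) (↑Λ)ᶜ
  have pb := Zf_pos (R := R) (J := J) (T := T) (Λ := Λ) (shf V t₂ h) ∅
  have pc := Zf_pos (R := R) (J := J) (T := T) (Λ := Λ) (shf V t₁ h) (↑Λ)ᶜ
  have pd := Zf_pos (R := R) (J := J) (T := T) (Λ := Λ) (shf V t₁ h) ∅
  have z1 := Zm_pos (R := R) (J := J) (T := T) (Λ := Λ) (V := V) h (↑Λ)ᶜ
  have z2 := Zm_pos (R := R) (J := J) (T := T) (Λ := Λ) (V := V) h ↑V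
  have z3 := Zm_pos (R := R) (J := J) (T := T) (Λ := Λ) (V := V) h ((↑Λ)ᶜ ∪ ↑V)
  have z4 := Zm_pos (R := R) (J := J) (T := T) (Λ := Λ) (V := V) h ∅
  have u' := Real.log_le_log (mul_pos pa z2) u
  have l' := Real.log_le_log (mul_pos z1 pd) l
  have q' := congrArg Real.log q
  rw [Real.log_mul pa.ne' z2.ne', Real.log_mul z3.ne' pb.ne'] at u'
  rw [Real.log_mul z1.ne' pd.ne', Real.log_mul pc.ne' z4.ne'] at l'
  rw [Real.log_mul z1.ne' z2.ne', Real.log_mul (mul_pos z3 z4).ne' hq.ne',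
    Real.log_mul z3.ne' z4.ne'] at q'
  unfold tenT
  rw [hF]
  simp only
  rw [← mul_sub, ← mul_sub, ← mul_sub, ← mul_neg]
  refine mul_le_mul_of_nonneg_left ?_ hT.le
  linarith

end Pool.Agent.H49.RFT
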