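import Pool.Agent.H98.RFT.Targets3
import Pool.Agent.H98.RFC.Targets

/-!
LB1: points of the inner rectangle.
-/

set_option autoImplicit false

open MeasureTheory ProbabilityTheory Filter Topology

namespace Pool.Agent.H49.RFT

open Pool.Agent.H98.RFC Pool.Agent.H98.RFZ Pool.Agent.H98.RFT

theorem gam_prob : IsProbabilityMeasure gam := by
  unfold gam
  infer_instance

theorem scal_cont (ε : ℝ) : Continuous (fun (η : Site → ℝ) (z : Site) => ε * η z) :=
  continuous_pi fun z => continuous_const.mul (continuous_apply z)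

/-- the influence of the scaled field is a bounded measurable function -/
theorem inf1_int (hINF : D_INF) (hCNT : D_CNT) {R : ℕ} {J : Site → ℝ} (hJ : IsCoupling R J)
    {T : ℝ} (hT : 0 < T) (ε : ℝ) (W : Finset Site) (x : Site) (hx : x ∈ W) :
    Integrable (fun η : Site → ℝ => inf1 R J (fun z => ε * η z) T W x) gam := by
  haveI := gam_prob
  have hc : Continuous (fun η : Site → ℝ => inf1 R J (fun z => ε * η z) T W x) :=
    ((hCNT R J T hT W).2.2 x).comp (scal_cont ε)
  refine Integrable.of_bound hc.measurable.aestronglyMeasurable 1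
    (Filter.Eventually.of_forall fun η => ?_)
  obtain ⟨-, h0, h1⟩ := (hINF R J hJ (fun z => ε * η z) T hT).1 W x hx
  rw [Real.norm_eq_abs, abs_of_nonneg h0]
  exact h1

/-- translation -/
theorem inf1_trans (hINF : D_INF) (hCNT : D_CNT) (hTRQ : D_TRQ)
    (hTRG : Pool.Agent.H98.RFC.T_TRG) {R : ℕ} {J : Site → ℝ} (hJ : IsCoupling R J)
    {T : ℝ} (hT : 0 < T) (ε : ℝ) (W : Finset Site) (h0 : (0 : Site) ∈ W) (x : Site) :
    ∫ η, inf1 R J (fun z => ε * η z) T (W.image fun z => x + z) x ∂gam =
      ∫ η, inf1 R J (fun z => ε * η z) T W 0 ∂gam := by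
  have hm : Measurable (fun (η : Site → ℝ) (z : Site) => η (x + z)) :=
    measurable_pi_lambda _ fun z => measurable_pi_apply (x + z)
  have hi := inf1_int hINF hCNT hJ hT ε W 0 h0
  set G : (Site → ℝ) → ℝ := fun η => inf1 R J (fun z => ε * η z) T W 0 with hG
  have e1 : ∀ η : Site → ℝ, inf1 R J (fun z => ε * η z) T (W.image fun z => x + z) x =
      G (fun z => η (x + z)) := by
    intro η
    have := (hTRQ R J (fun z => ε * η z) T W x).2 0
    rw [add_zero] at this
    exact this
  have h3 : ∫ η, G (fun z => η (x + z)) ∂gam = ∫ η, G η ∂gam := by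
    have h4 := integral_map (μ := gam) hm.aemeasurable (f := G) (by
      rw [hTRG x]
      exact hi.aestronglyMeasurable)
    rw [hTRG x] at h4
    exact h4.symm
  exact (integral_congr_ae (Filter.Eventually.of_forall e1)).trans h3

theorem pf_LB1 (hINF : D_INF) (hCNT : D_CNT) (hTRQ : D_TRQ)
    (hTRG : Pool.Agent.H98.RFC.T_TRG) (hRCT : P_RCT) : P_LBT := by
  intro R J hJ T ε hT p K w hp hK hw
  obtain ⟨_, hmono, _, htr⟩ := hRCT p K w hp hK hw
  obtain ⟨hin5, _, _, _⟩ := hRCT p K (5 * w) hp hK (by linarith)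
  have h05 : (0 : Site) ∈ rect p K (5 * w) := by
    rw [hin5]
    have h1 : fdet p 0 = 0 := by simp [fdet]
    have h2 : gdot p 0 = 0 := by simp [gdot]
    rw [h1, h2]
    simp only [Int.cast_zero, abs_zero]
    have hn : 0 ≤ nrm p := Real.sqrt_nonneg _
    have hK0 : 0 ≤ K := by linarith
    constructor <;> positivity
  have hx4 : ∀ x ∈ rect p K w, x ∈ rect p K (4 * w) := fun x hx => hmono (4 * w) (by linarith) hx
  rw [integral_finsetSum _ fun x hx => inf1_int hINF hCNT hJ hT ε _ x (hx4 x hx),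
    ← nsmul_eq_mul, ← Finset.sum_const]
  refine Finset.sum_le_sum fun x hx => ?_
  have hsub := htr x hx
  unfold mKT
  rw [← inf1_trans hINF hCNT hTRQ hTRG hJ hT ε (rect p K (5 * w)) h05 x]
  have hxi : x ∈ (rect p K (5 * w)).image fun z => x + z := hsub (hx4 x hx)
  refine integral_mono (inf1_int hINF hCNT hJ hT ε _ x hxi)
    (inf1_int hINF hCNT hJ hT ε _ x (hx4 x hx)) fun η => ?_
  exact ((hINF R J hJ (fun z => ε * η z) T hT).2.1 _ _ hsub x (hx4 x hx)).2

end Pool.Agent.H49.RFT
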